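import Pool.Agent.W646.CI.Stm

set_option autoImplicit false

namespace Pool.Agent.W52.CI

open Pool.Agent.W646.CI

theorem tj_pow (K j : ℕ) (hK : 3 ≤ K) : tj K j ^ (K - 1) = Real.sqrt j := by
  unfold tj
  rw [← Real.rpow_natCast, ← Real.rpow_mul (Nat.cast_nonneg j), Real.sqrt_eq_rpow]
  congr 1
  have h1 : ((K - 1 : ℕ) : ℝ) = (K : ℝ) - 1 := by
    rw [Nat.cast_sub (by omega), Nat.cast_one]
  rw [h1]
  have h2 : (3 : ℝ) ≤ K := by exact_mod_cast hK
  have h3 : (K : ℝ) - 1 ≠ 0 := by linarith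
  have h4 : (2 * (K : ℝ) - 2) ≠ 0 := by
    intro h
    apply h3
    linarith
  field_simp

theorem re_lower (K : ℕ) (R : ℝ) (hR1 : R < 1) (j : ℕ) (hl : 0 < lj K j) (s : ℂ)
    (hs : s ∈ DD K R j) : tj K j - (-2 * Real.log (1 - R)) / lj K j ≤ s.re := by
  obtain ⟨_, h2⟩ := hs
  have h3 : 1 - R < ‖Complex.exp (((lj K j / 2 : ℝ) : ℂ) * (s - sj K j))‖ := by
    have h4 : ‖(1 : ℂ)‖ ≤ ‖Complex.exp (((lj K j / 2 : ℝ) : ℂ) * (s - sj K j))‖ +
        ‖Complex.exp (((lj K j / 2 : ℝ) : ℂ) * (s - sj K j)) - 1‖ := by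
      have h5 : (1 : ℂ) = Complex.exp (((lj K j / 2 : ℝ) : ℂ) * (s - sj K j)) -
          (Complex.exp (((lj K j / 2 : ℝ) : ℂ) * (s - sj K j)) - 1) := by ring
      calc ‖(1 : ℂ)‖ = ‖Complex.exp (((lj K j / 2 : ℝ) : ℂ) * (s - sj K j)) -
          (Complex.exp (((lj K j / 2 : ℝ) : ℂ) * (s - sj K j)) - 1)‖ := by rw [← h5]
        _ ≤ _ := norm_sub_le _ _
    rw [norm_one] at h4
    linarith
  rw [Complex.norm_exp, Complex.re_ofReal_mul, Complex.sub_re] at h3
  have h6 : (sj K j).re = tj K j := rfl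
  rw [h6] at h3
  have h7 : Real.log (1 - R) ≤ lj K j / 2 * (s.re - tj K j) := by
    rw [← Real.log_exp (lj K j / 2 * (s.re - tj K j))]
    exact Real.log_le_log (by linarith) h3.le
  have h8 : (-2 * Real.log (1 - R)) / lj K j * lj K j = -2 * Real.log (1 - R) :=
    div_mul_cancel₀ _ hl.ne'
  by_contra hcon
  rw [not_le] at hcon
  have h9 : (s.re - tj K j) * lj K j < -((-2 * Real.log (1 - R)) / lj K j) * lj K j := by
    apply mul_lt_mul_of_pos_right _ hl
    linarith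
  have h10 : -((-2 * Real.log (1 - R)) / lj K j) * lj K j = 2 * Real.log (1 - R) := by
    rw [neg_mul, h8]
    ring
  rw [h10] at h9
  nlinarith

theorem conv (K : ℕ) (hK : 1 ≤ K) (T t : ℝ) (hT : 0 < T) (ht : 0 ≤ t) :
    T ^ K + K * T ^ (K - 1) * (t - T) ≤ t ^ K := by
  have h1 : (-2 : ℝ) ≤ (t - T) / T := by
    rw [le_div_iff₀ hT]
    linarith
  have h2 := one_add_mul_le_pow h1 K
  have h3 : 1 + (t - T) / T = t / T := by
    field_simp
    ring
  rw [h3, div_pow, le_div_iff₀ (pow_pos hT K)] at h2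
  have h4 : T ^ K = T * T ^ (K - 1) := by
    rw [← pow_succ']
    congr 1
    omega
  have h5 : (1 + (K : ℝ) * ((t - T) / T)) * T ^ K = T ^ K + K * T ^ (K - 1) * (t - T) := by
    rw [h4]
    field_simp
  linarith

theorem t_DEN : S_DEN := by
  intro K R ε hK hR0 hR1 hε
  set C : ℝ := -2 * Real.log (1 - R) with hCdef
  have hC : 0 ≤ C := by
    have : Real.log (1 - R) ≤ 0 := Real.log_nonpos (by linarith) (by linarith)
    rw [hCdef]
    linarith
  obtain ⟨T1, hT1⟩ := exists_nat_ge (max 1 (max C ((1 + ε) * (2 * (K - 1 : ℕ)) * C / ε)))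
  refine ⟨T1, fun j hj s hs => ?_⟩
  set T := tj K j with hTdef
  have hTT : max 1 (max C ((1 + ε) * (2 * (K - 1 : ℕ)) * C / ε)) ≤ T := hT1.trans hj
  have h1T : 1 ≤ T := (le_max_left _ _).trans hTT
  have hCT : C ≤ T := ((le_max_left _ _).trans (le_max_right _ _)).trans hTT
  have hET : (1 + ε) * (2 * (K - 1 : ℕ)) * C / ε ≤ T :=
    ((le_max_right _ _).trans (le_max_right _ _)).trans hTT
  have hET' : (1 + ε) * (2 * (K - 1 : ℕ)) * C ≤ T * ε := (div_le_iff₀ hε).mp hET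
  have hT0 : 0 < T := by linarith
  have hpow : T ^ (K - 1) = Real.sqrt j := tj_pow K j hK
  have hljT : lj K j = K * T ^ (K - 1) := by
    rw [hpow]
    rfl
  have hK1 : (1 : ℝ) ≤ K := by
    have : 1 ≤ K := by omega
    exact_mod_cast this
  have hl1 : 1 ≤ lj K j := by
    rw [hljT]
    have : 1 ≤ T ^ (K - 1) := one_le_pow₀ h1T
    nlinarith
  have hre := re_lower K R hR1 j (by linarith) s hs
  rw [← hCdef, ← hTdef] at hre
  have hCl : C / lj K j ≤ C := div_le_self hC hl1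
  have htC : T - C ≤ s.re := by linarith
  have ht0 : 0 ≤ s.re := by linarith
  set t := s.re with htdef
  -- the exponential factor
  have hexp : ej K j * Real.exp (lj K j * (t - T)) ≤ Real.exp (t ^ K) := by
    unfold ej
    rw [← Real.exp_add]
    apply Real.exp_le_exp.mpr
    have := conv K (by omega) T t hT0 ht0
    rw [hljT]
    exact this
  -- the squares
  have hsq : lj K j ^ 2 ≤ (1 + ε) * (K * t ^ (K - 1)) ^ 2 := by
    rw [hljT, mul_pow, mul_pow, ← pow_mul, ← pow_mul]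
    have hb : (-2 : ℝ) ≤ -(C / T) := by
      have : C / T ≤ 1 := (div_le_one hT0).mpr hCT
      linarith
    have h2 := one_add_mul_le_pow hb ((K - 1) * 2)
    have h3 : (T - C) ^ ((K - 1) * 2) ≤ t ^ ((K - 1) * 2) :=
      pow_le_pow_left₀ (by linarith) htC _
    have h4 : (T - C) = T * (1 + -(C / T)) := by
      field_simp
      ring
    have h5 : (T - C) ^ ((K - 1) * 2) = T ^ ((K - 1) * 2) * (1 + -(C / T)) ^ ((K - 1) * 2) := by
      rw [h4, mul_pow]
    have h6 : 1 ≤ (1 + ε) * (1 + (((K - 1) * 2 : ℕ) : ℝ) * (-(C / T))) := by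
      have h7 : (((K - 1) * 2 : ℕ) : ℝ) = 2 * ((K - 1 : ℕ) : ℝ) := by
        push_cast
        ring
      rw [h7]
      have h8 : (1 + ε) * (2 * ((K - 1 : ℕ) : ℝ)) * (C / T) ≤ ε := by
        rw [← mul_div_assoc, div_le_iff₀ hT0]
        linarith
      nlinarith
    have hTp : 0 ≤ T ^ ((K - 1) * 2) := by positivity
    have h9 : T ^ ((K - 1) * 2) ≤ (1 + ε) * t ^ ((K - 1) * 2) := by
      calc T ^ ((K - 1) * 2) = T ^ ((K - 1) * 2) * 1 := by ring
        _ ≤ T ^ ((K - 1) * 2) * ((1 + ε) * (1 + (((K - 1) * 2 : ℕ) : ℝ) * (-(C / T)))) :=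
          mul_le_mul_of_nonneg_left h6 hTp
        _ = (1 + ε) * (T ^ ((K - 1) * 2) * (1 + (((K - 1) * 2 : ℕ) : ℝ) * (-(C / T)))) := by ring
        _ ≤ (1 + ε) * (T ^ ((K - 1) * 2) * (1 + -(C / T)) ^ ((K - 1) * 2)) := by
          apply mul_le_mul_of_nonneg_left _ (by linarith)
          exact mul_le_mul_of_nonneg_left h2 hTp
        _ = (1 + ε) * (T - C) ^ ((K - 1) * 2) := by rw [h5]
        _ ≤ (1 + ε) * t ^ ((K - 1) * 2) := mul_le_mul_of_nonneg_left h3 (by linarith)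
    calc (K : ℝ) ^ 2 * T ^ ((K - 1) * 2) ≤ (K : ℝ) ^ 2 * ((1 + ε) * t ^ ((K - 1) * 2)) :=
          mul_le_mul_of_nonneg_left h9 (by positivity)
      _ = (1 + ε) * ((K : ℝ) ^ 2 * t ^ ((K - 1) * 2)) := by ring
  have hrho : (K * t ^ (K - 1)) ^ 2 * Real.exp (t ^ K) ≤ rho K t := by
    unfold rho
    apply mul_le_mul_of_nonneg_right _ (Real.exp_pos _).le
    have : 0 ≤ (K : ℝ) * (K - 1) * t ^ (K - 2) := by
      apply mul_nonneg (mul_nonneg (by linarith) (by linarith)) (pow_nonneg ht0 _)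
    linarith
  unfold den
  rw [← hTdef]
  have hpos : 0 ≤ ej K j * Real.exp (lj K j * (t - T)) := by
    unfold ej
    positivity
  calc lj K j ^ 2 * ej K j * Real.exp (lj K j * (t - T))
      = lj K j ^ 2 * (ej K j * Real.exp (lj K j * (t - T))) := by ring
    _ ≤ ((1 + ε) * (K * t ^ (K - 1)) ^ 2) * Real.exp (t ^ K) :=
        mul_le_mul hsq hexp hpos (by positivity)
    _ = (1 + ε) * ((K * t ^ (K - 1)) ^ 2 * Real.exp (t ^ K)) := by ring
    _ ≤ (1 + ε) * rho K t := mul_le_mul_of_nonneg_left hrho (by linarith)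

end Pool.Agent.W52.CI
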